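import Pool.Agent.Helper75.PZ.Stmts2

set_option autoImplicit false

universe u

open Module TensorProduct Pool.Agent.Helper75.PZ

namespace Pool.Agent.Helper99.PZ

theorem FX_sg {M : Type u} [Field M] (n : ℤ) : ((-1 : M) ^ n) ^ 2 = 1 := by
  rw [← zpow_natCast, ← zpow_mul, mul_comm, zpow_mul]
  norm_num

theorem st_FX : ST_FX.{u} := by
  intro F M _ _ _ σ φ h2 hφ hσ3 hσ1
  have hsσ : ∀ n : ℤ, σ ((-1 : M) ^ n) = (-1 : M) ^ n := by
    intro n
    rw [map_zpow₀, map_neg, map_one]
  -- iterates
  have key : ∀ (k : ℕ) (h : HS M) (γ : G2),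
      ((φ ^ k) h).coeff γ = ((-1 : M) ^ (n2 γ)) ^ k * (σ ^ k) (h.coeff γ) := by
    intro k
    induction k with
    | zero =>
      intro h γ
      simp
    | succ k ih =>
      intro h γ
      rw [pow_succ', AlgHom.mul_apply, hφ, ih, map_mul, map_pow, hsσ, pow_succ' _ k,
        pow_succ' σ k, AlgEquiv.mul_apply]
      ring
  have hσ3' : σ ^ 3 = 1 := by
    ext m
    rw [pow_succ, pow_succ, pow_one, AlgEquiv.mul_apply, AlgEquiv.mul_apply, AlgEquiv.one_apply]
    exact hσ3 m
  have h6 : φ ^ 6 = 1 := by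
    ext h γ
    have hs : ((-1 : M) ^ (n2 γ)) ^ 6 = 1 := by
      rw [show 6 = 2 * 3 from rfl, pow_mul, FX_sg, one_pow]
    have hs6 : σ ^ 6 = 1 := by
      rw [show 6 = 3 * 2 from rfl, pow_mul, hσ3', one_pow]
    rw [key 6 h γ, hs, hs6, one_mul, AlgEquiv.one_apply, AlgHom.one_apply]
  -- the automorphism
  let φ' : HS M ≃ₐ[F] HS M := AlgEquiv.ofAlgHom φ (φ ^ 5)
    (by
      have : φ * φ ^ 5 = φ ^ 6 := by rw [← pow_succ']
      rw [h6] at this
      exact this)
    (by
      have : φ ^ 5 * φ = φ ^ 6 := by rw [← pow_succ]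
      rw [h6] at this
      exact this)
  have hφ' : ∀ h, φ' h = φ h := fun h => rfl
  have hpow : ∀ (k : ℕ) (h : HS M), (φ' ^ k) h = (φ ^ k) h := by
    intro k
    induction k with
    | zero => intro h; rfl
    | succ k ih =>
      intro h
      rw [pow_succ', pow_succ', AlgEquiv.mul_apply, AlgHom.mul_apply, ih, hφ']
  have hord : orderOf φ' = 6 := by
    refine orderOf_eq_of_pow_and_pow_div_prime (by norm_num) ?_ ?_
    · ext1 h
      rw [hpow, h6]
      rfl
    · intro p hp hdvd hone
      have hp6 : p = 2 ∨ p = 3 := by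
        have hle : p ≤ 6 := Nat.le_of_dvd (by norm_num) hdvd
        interval_cases p <;> simp_all (config := { decide := true })
      rcases hp6 with rfl | rfl
      · -- φ ^ 3 ≠ 1
        have h3 := congrArg (fun f : HS M ≃ₐ[F] HS M =>
          (f (HahnSeries.single (toLex ((0 : ℤ), (1 : ℤ))) (1 : M))).coeff
            (toLex ((0 : ℤ), (1 : ℤ)))) hone
        have e3 : (6 : ℕ) / 2 = 3 := rfl
        simp only [e3] at h3
        rw [hpow, key, HahnSeries.coeff_single_same, hσ3', AlgEquiv.one_apply,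
          AlgEquiv.one_apply, HahnSeries.coeff_single_same] at h3
        have hn : n2 (toLex ((0 : ℤ), (1 : ℤ))) = 1 := rfl
        rw [hn, zpow_one, mul_one] at h3
        have h4 : (2 : M) = 0 := by linear_combination (-1 : M) * h3
        apply h2
        have h5 : algebraMap F M 2 = algebraMap F M 0 := by
          rw [map_ofNat, map_zero]
          exact h4
        exact (algebraMap F M).injective h5
      · -- φ ^ 2 ≠ 1
        obtain ⟨m, hm⟩ := hσ1
        have h3 := congrArg (fun f : HS M ≃ₐ[F] HS M =>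
          (f (HahnSeries.single (toLex ((0 : ℤ), (0 : ℤ))) m)).coeff
            (toLex ((0 : ℤ), (0 : ℤ)))) hone
        have e3 : (6 : ℕ) / 3 = 2 := rfl
        simp only [e3] at h3
        rw [hpow, key, HahnSeries.coeff_single_same, AlgEquiv.one_apply,
          HahnSeries.coeff_single_same, FX_sg, one_mul, pow_two, AlgEquiv.mul_apply] at h3
        apply hm
        calc σ m = σ (σ (σ m)) := by rw [h3]
          _ = m := hσ3 m
  have hfin : Finite (Subgroup.zpowers φ') := by
    rw [← Nat.card_pos_iff.trans (and_iff_right ⟨1⟩)]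
    rw [Nat.card_zpowers, hord]
    norm_num
  have : Fintype (Subgroup.zpowers φ') := Fintype.ofFinite _
  refine ⟨IntermediateField.fixedField (Subgroup.zpowers φ'), ?_, ?_⟩
  · intro h
    rw [IntermediateField.mem_fixedField_iff]
    constructor
    · intro hh
      exact hh φ' (Subgroup.mem_zpowers φ')
    · intro hh f hf
      have h7 : Subgroup.zpowers φ' ≤ MulAction.stabilizer (HS M ≃ₐ[F] HS M) h := by
        rw [Subgroup.zpowers_le, MulAction.mem_stabilizer_iff]
        exact hh
      exact MulAction.mem_stabilizer_iff.mp (h7 hf)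
  · have h8 := FixedPoints.finrank_eq_card (Subgroup.zpowers φ') (HS M)
    rw [← Nat.card_eq_fintype_card, Nat.card_zpowers, hord] at h8
    exact h8

end Pool.Agent.Helper99.PZ
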